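import Mathlib
import Pool.Agent.Helper92.PO.Stmts

/-!
MP_c7ded2_lc, module PFLM: flatMap with environment is a polynomial time function.
-/

set_option autoImplicit false

namespace Pool.Agent.Helper92.PO

open Function Pool.Agent.Helper52.Poly

theorem pflm_append {β : Type} [Enc β] (u v : List β) : sz (u ++ v) ≤ sz u + sz v := by
  induction u with
  | nil => simp
  | cons a u ih =>
    rw [List.cons_append, sz_cons, sz_cons]
    omega

theorem pflm_foldl {α β : Type} (f : α → List β) : ∀ (l : List α) (u : List β),
    l.foldl (fun u x => u ++ f x) u = u ++ l.flatMap f := by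
  intro l
  induction l with
  | nil => intro u; simp
  | cons a l ih =>
    intro u
    rw [List.foldl_cons, ih, List.flatMap_cons, List.append_assoc]

theorem st_PFLM : ST_PFLM := by
  intro γ α β _ _ _ l h hl hh
  obtain ⟨H, hH⟩ := hh.size_le
  obtain ⟨L, hL⟩ := hl.size_le
  have hstep : PF (fun s : (γ × List β) × α => s.1.2 ++ h (s.1.1, s.2)) :=
    PF.append (PF.snd' PF.fst) (hh.comp (PF.pair (PF.fst' PF.fst) PF.snd))
  have key := PF.foldlEnvGrow (init := fun _ : γ => ([] : List β)) (lst := l)
    (step := fun s : (γ × List β) × α => s.1.2 ++ h (s.1.1, s.2)) (PF.const _) hl hstep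
    (H.comp (1 + Polynomial.X + L))
    (fun c u x hx => by
      have h1 := pflm_append u (h (c, x))
      have h2 := hH (c, x)
      have h3 := sz_mem_le hx
      have h4 := hL c
      have h5 : H.eval (sz (c, x)) ≤ (H.comp (1 + Polynomial.X + L)).eval (sz c) := by
        rw [Polynomial.eval_comp]
        apply pmono
        rw [sz_pair]
        simp only [Polynomial.eval_add, Polynomial.eval_one, Polynomial.eval_X]
        omega
      simp only
      omega)
  refine key.congr (fun c => ?_)
  congr 1
  rw [pflm_foldl (fun x => h (c, x)) (l c) [], List.nil_append]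

end Pool.Agent.Helper92.PO
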